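import Pool.Agent.R495.SP.Aspects

/-!
# A spiral tiling whose tiles occur in infinitely many aspects

The plane is `ℂ`.  A monohedral tiling of the plane is constructed, with prototile the right
triangle of sides `3, 4, 5`, which is a spiral in the sense of the problem (finitely many arcs
marked in the prototile -- here one arc, the leg of length `4` -- whose copies in all tiles have as
union a finite union of unbounded simple curves -- here eight closed rays) and in which the tiles
fall into infinitely many translation classes.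
-/

namespace Pool.Agent.Results.MP_55cbcc_co.InfiniteAspects

open Set

/-- `τ` is a tiling of the plane: a countable family of closed topological disks that cover the
plane and have pairwise disjoint interiors. -/
structure IsTiling {ι : Type} (τ : ι → Set ℂ) : Prop where
  countable : Countable ι
  disk : ∀ i, Nonempty (τ i ≃ₜ Metric.closedBall (0:ℂ) 1)
  cover : ⋃ i, τ i = univ
  disjoint : ∀ i j, i ≠ j → Disjoint (interior (τ i)) (interior (τ j))

/-- Every tile is congruent to `T` (isometries that reverse the orientation are allowed). -/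
def IsMonohedral {ι : Type} (τ : ι → Set ℂ) (T : Set ℂ) : Prop :=
  ∀ i, ∃ σ : ℂ ≃ᵢ ℂ, σ '' T = τ i

/-- An arc: a homeomorphic image of `[0,1]`. -/
def IsArc (A : Set ℂ) : Prop := Nonempty (A ≃ₜ Icc (0:ℝ) 1)

/-- A simple curve: a subset of the plane homeomorphic to `ℝ` or to `[0,∞)`. -/
def IsSimpleCurve (C : Set ℂ) : Prop := Nonempty (C ≃ₜ ℝ) ∨ Nonempty (C ≃ₜ Ici (0:ℝ))

/-- The spiral condition with `m` marked arcs in the prototile and `r` unbounded simple curves. -/
def IsSpiralWith {ι : Type} (τ : ι → Set ℂ) (T : Set ℂ) (m r : ℕ) : Prop :=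
  ∃ (A : Fin m → Set ℂ) (σ : ι → (ℂ ≃ᵢ ℂ)) (C : Fin r → Set ℂ),
    (∀ a, A a ⊆ T ∧ IsArc (A a)) ∧
    (∀ i, σ i '' T = τ i) ∧
    (∀ c, IsSimpleCurve (C c) ∧ ¬ Bornology.IsBounded (C c)) ∧
    ⋃ i, σ i '' (⋃ a, A a) = ⋃ c, C c

/-- The tiling `τ` with prototile `T` is a spiral (at least one arc is marked). -/
def IsSpiral {ι : Type} (τ : ι → Set ℂ) (T : Set ℂ) : Prop :=
  ∃ m r : ℕ, 0 < m ∧ IsSpiralWith τ T m r

/-- Two tiles have the same aspect if one is a translate of the other. -/
def SameAspect (S S' : Set ℂ) : Prop := ∃ v : ℂ, (fun z => z + v) '' S = S'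

/-- The tiles fall into finitely many aspects. -/
def FinitelyManyAspects {ι : Type} (τ : ι → Set ℂ) : Prop :=
  ∃ F : Set ι, F.Finite ∧ ∀ i, ∃ j ∈ F, SameAspect (τ j) (τ i)

/-- The assertion of Q1: in every spiral tiling the tiles fall into only finitely many aspects. -/
def AspectsConjecture : Prop :=
  ∀ (ι : Type) (τ : ι → Set ℂ) (T : Set ℂ),
    IsTiling τ → IsMonohedral τ T → IsSpiral τ T → FinitelyManyAspects τ

/-- The prototile: the right triangle with vertices `0`, `4`, `3i`. -/
def Triangle : Set ℂ := {z | 0 ≤ z.re ∧ 0 ≤ z.im ∧ 3 * z.re + 4 * z.im ≤ 12}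

open Pool.Agent.R495.SP

theorem countable_idx : Countable {t : Idx // t.valid} := by
  have : Function.Injective (fun t : Idx => (t.lv, t.k, t.i, t.j, t.up)) := by
    rintro ⟨a, b, c, d, e⟩ ⟨a', b', c', d', e'⟩ h
    simp only [Prod.mk.injEq] at h
    obtain ⟨h1, h2, h3, h4, h5⟩ := h
    subst h1 h2 h3 h4 h5
    rfl
  have : Countable Idx := this.countable
  exact Subtype.countable

theorem result :
    (∃ (ι : Type) (τ : ι → Set ℂ), IsTiling τ ∧ IsMonohedral τ Triangle ∧
      IsSpiralWith τ Triangle 1 8 ∧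
      ∃ f : ℕ → ι, ∀ n m, n ≠ m → ¬ SameAspect (τ (f n)) (τ (f m))) ∧
    ¬ AspectsConjecture := by
  have main : ∃ (ι : Type) (τ : ι → Set ℂ), IsTiling τ ∧ IsMonohedral τ Triangle ∧
      IsSpiralWith τ Triangle 1 8 ∧
      ∃ f : ℕ → ι, ∀ n m, n ≠ m → ¬ SameAspect (τ (f n)) (τ (f m)) := by
    refine ⟨{t : Idx // t.valid}, fun t => tiso t.1 '' T, ?_, ?_, ?_, ?_⟩
    · refine ⟨countable_idx, ?_, ?_, ?_⟩
      · intro t
        obtain ⟨h⟩ := T_disk
        exact ⟨((tiso t.1).toHomeomorph.image T).symm.trans h⟩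
      · rw [eq_univ_iff_forall]
        intro z
        obtain ⟨t, ht, w, hw, e⟩ := cover z
        rw [mem_iUnion]
        exact ⟨⟨t, ht⟩, w, hw, by rw [tiso_apply, e]⟩
      · intro t t' hne
        exact tiles_disjoint t.2 t'.2 (fun h => hne (Subtype.ext h))
    · exact fun t => ⟨tiso t.1, rfl⟩
    · refine ⟨fun _ => Leg, fun t => tiso t.1, Cset, fun _ => ⟨leg_sub, leg_arc⟩, fun t => rfl,
        fun q => ⟨Or.inr (Cset_ray q).1, (Cset_ray q).2⟩, ?_⟩
      rw [← E_eq]
      ext z
      simp only [mem_iUnion, mem_image, E, mem_ofPred_eq]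
      constructor
      · rintro ⟨⟨t, ht⟩, w, ⟨-, hw⟩, e⟩
        exact ⟨t, ht, w, hw, by rw [← tiso_apply, e]⟩
      · rintro ⟨t, ht, w, hw, e⟩
        exact ⟨⟨t, ht⟩, w, ⟨0, hw⟩, by rw [tiso_apply, e]⟩
    · refine ⟨fun n => ⟨corner n, corner_valid n⟩, ?_⟩
      rintro n m hnm ⟨v, hv⟩
      exact corner_not_translate hnm v hv
  refine ⟨main, ?_⟩
  obtain ⟨ι, τ, h1, h2, h3, f, hf⟩ := main
  intro hconj
  obtain ⟨F, hF, hcov⟩ := hconj ι τ Triangle h1 h2 ⟨1, 8, one_pos, h3⟩
  choose g hgF hg using fun n => hcov (f n)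
  -- two indices have the same class
  have : ∃ n m, n ≠ m ∧ g n = g m := by
    by_contra hcon
    push Not at hcon
    have hinj : Function.Injective g := by
      intro n m h
      by_contra hne
      exact hcon n m hne h
    have hinf : (range g).Infinite := infinite_range_of_injective hinj
    exact hinf (hF.subset (by rintro _ ⟨n, rfl⟩; exact hgF n))
  obtain ⟨n, m, hne, hgnm⟩ := this
  apply hf n m hne
  obtain ⟨v, hv⟩ := hg n
  obtain ⟨v', hv'⟩ := hg m
  refine ⟨v' - v, ?_⟩
  rw [← hv, ← hv', image_image, hgnm]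
  congr 1
  funext z
  ring

end Pool.Agent.Results.MP_55cbcc_co.InfiniteAspects
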